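import Pool.Agent.R413.CV.Final

/-!
The positive real zeros of the L-functions of all representations of `ℓ`-power image of the
fundamental groups of the varieties over `k'`, for a positive proportion of the primes `ℓ` and the
fields `k'` generated by roots of unity of order a power of `ℓ`; the Birch and Swinnerton-Dyer
conjecture for the Jacobians of the curves `y ^ (ℓ ^ n) = F(x, t)` and their coverings.
-/

set_option autoImplicit false
set_option maxHeartbeats 1000000

open Module Pool.Agent.TH639.SN

namespace Pool.Agent.Results.MP_60d5ce_nt.ArithmeticCoverings

/-- The set contains a positive proportion of the primes: there is a constant `c > 0` such that for all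
large `x` at least `c π(x)` of the primes up to `x` are in the set. -/
def PositiveDensity (S : Set ℕ) : Prop :=
  ∃ c : ℝ, 0 < c ∧ ∃ x₀ : ℕ, ∀ x : ℕ, x₀ ≤ x →
    c * Nat.primeCounting x ≤ Set.ncard {p : ℕ | p ≤ x ∧ p.Prime ∧ p ∈ S}

/-- A real positive number. -/
def IsPositive (a : ℂ) : Prop := 0 < a.re ∧ a.im = 0

/-- The number is `q ^ (w / 2)` for a `w ≥ 0` (with the positive root). -/
def IsHalfPower (q : ℕ) (a : ℂ) : Prop := IsPositive a ∧ ∃ w : ℕ, a ^ 2 = (q : ℂ) ^ w

/-- The product of the `1 - a T` over the `a` in the multiset. -/
noncomputable def polynomialOf (P : Multiset ℂ) : PowerSeries ℂ :=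
  (P.map fun a => 1 - PowerSeries.C a * PowerSeries.X).prod

section defs

variable {k : Type} [Field k] {ι : Type} {m : ℕ}

/-- The closed points of the subset of affine space of dimension `m` given by the polynomials `G i` and
the condition `Q` on the set of all `i` with `G i = 0`. Every constructible subset is of this form; so
every variety is, up to a decomposition into finitely many locally closed pieces. -/
def ClosedPoints (G : ι → MvPolynomial (Fin m) k) (Q : Set ι → Prop) : Type :=
  {z : SpacePt m k // Q {i | normValue m k (G i) z = 0}}

/-- The set over `k'` given by the `G i` and `Q` has `∑ c ^ [E : k] - ∑ b ^ [E : k]` points over `E`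
for all finite extensions `E` of `k'`, where `c` runs through `C` and `b` through `B`. -/
def HasPoints (k : Type) [Field k] {k' : Type} [Field k'] [Algebra k k']
    (G : ι → MvPolynomial (Fin m) k') (Q : Set ι → Prop) (C B : Multiset ℂ) : Prop :=
  ∀ (E : Type) [Field E] [Finite E] [Algebra k E] [Algebra k' E] [IsScalarTower k k' E],
    (Nat.card {x : Fin m → E // Q {i | MvPolynomial.aeval x (G i) = 0}} : ℂ) =
      (C.map fun c => c ^ finrank k E).sum - (B.map fun b => b ^ finrank k E).sum

/-- The product over the closed points `z` of the products of the `1 - a T ^ (deg z)` for `a` in `A z`.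
If `A z` consists of the eigenvalues of `σ(Frob_z)` this is the inverse of the L-function of the
representation `σ`. -/
noncomputable def lInverse (G : ι → MvPolynomial (Fin m) k) (Q : Set ι → Prop)
    (A : ClosedPoints G Q → Multiset ℂ) : PowerSeries ℂ :=
  eulerProduct (fun z : ClosedPoints G Q => deg m k z.1) fun z =>
    ((A z).map fun a => 1 - PowerSeries.C a * PowerSeries.X ^ deg m k z.1).prod

end defs

open Classical in
/-- **The zeros of the L-functions of all representations of `ℓ`-power image, for a positive proportion
of the primes `ℓ`.**

Let `k` be the field with `q` elements, and `U` a variety over `k` (a constructible subset of an affine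
space; smooth or not, of any dimension) with `∑ c ^ d - ∑ b ^ d` points over the extension of degree `d`:
`C` and `B` are the eigenvalues of the Frobenius on the compactly supported cohomology of even and of odd
degree.

Theorem. There is a set `S` of primes of positive density such that for ALL `ℓ` in `S` the number `q` is a
square modulo `ℓ` (so the degree of `k(μ_(ℓ ^ n))` over `k` divides `(ℓ - 1) / 2 * ℓ ^ (n - 1)`), and
the following holds for ALL extensions `k'` of `k` whose degree divides `(ℓ - 1) / 2 * ℓ ^ j` for some
`j`, ALL forms of `U` over `k'` (varieties with the same numbers of points over the extensions of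
`k'`), and ALL representations `σ` of the fundamental group of the form with image a finite `ℓ`-group,
of any degree `d` (more generally, for all families `A z` of `d` roots of unity of `ℓ`-power order).
Write `1 / L(σ, T) = ∏ (1 - α T) / ∏ (1 - β T)` with `α` in `P`, `β` in `D`, the eigenvalues of the
Frobenius in even and odd degrees. Let `δ` be the number of positive real `c` in `C` minus the
number of positive real `b` in `B`. Then with `q' = #k'` at most `|D| + d δ` of the `α` and at most
`|P| - d δ` of the `β` are of the form `q' ^ (w / 2)`, `w ≥ 0` (with multiplicities; by the Riemann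
hypothesis for varieties these are all positive real `α` and `β`).

Tate conjecture. Let `U` be open in a smooth projective surface `X`, `U'` a connected Galois covering of
`U` over `k'` with group an `ℓ`-group, and `X'` a smooth projective compactification of `U'`. If
`δ = 0` and the cohomology of odd degree of `U` with coefficients in the irreducible `σ ≠ 1` vanishes
(`D` empty), no Frobenius eigenvalue on the even cohomology is `q'`. Hence all Tate classes of `X'`
orthogonal to the boundary come from `X`, and Tate's conjecture for `X` over `k'` implies
Tate's conjecture for `X'`. The number `δ` is additive like the Euler characteristic: `δ = 1` for an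
affine plane, a point, or a smooth curve with one point at infinity and no Frobenius eigenvalue `√q`, so
`δ = 0` for the complement `U` in the plane of such a curve, and it does not change if one
removes such curves which meet the ones already removed in exactly one closed point.

Jacobians. Let `a`, `b` be coprime and `F = c x ^ b + d t ^ a` plus terms `x ^ i t ^ j` with
`a i + b j < a b`, `c d ≠ 0`, such that the curve `Z : F = 0` is smooth; it has genus
`g = (a - 1) (b - 1) / 2` and one point at infinity. For `U = A² - Z` we have
`#U = q² - q + ∑ b`, the sum over the eigenvalues `b` of the Frobenius of `Z`, `C = {q², b, ...}`,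
`B = {q}`, `δ` = number of the `b = √q`. Let `M = ℓ ^ n` be prime to `p a b`, and `J_M` the Jacobian of
`y ^ M = F(x, t)` over `k(t)`. If `k'` contains the roots of unity of order `M`, the L-function
`L(J_M / k'(t), T)` is the product of the polynomials `1 / L(χ)` of degree `2 g` over the characters
`χ ≠ 1` of `k'` with `χ ^ M = 1` (Kummer sheaves of `F`): the direct image on the `t`-line of
the Kummer sheaf is the middle extension of its generic stalk, as `Z` is smooth and `χ ^ b ≠ 1`, and has
no invariants at infinity, as `χ ^ a ≠ 1`. If `√q` is not an eigenvalue of the Frobenius of `Z`, then for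
all `ℓ` in `S` prime to `p a b`, ALL `n` and ALL `k'` as above `L(J_M / k'(t), s)` does not vanish at
`s = 1`. So by Tate's inequality and the theorem of Kato and Trihan `J_M` has rank zero, and the Birch and
Swinnerton-Dyer conjecture holds for it, over `k'(t)` and over `k(t)`; the dimension of `J_M` tends to
infinity with `n`. The same holds for the twists `v F`, and over the extensions
`k'(t)(π_1 ^ (1 / ℓ ^ m), ..., π_s ^ (1 / ℓ ^ m))` for all `m`, if `π_1, ..., π_s` are irreducible
polynomials in `k[t]` with just one closed point of `Z` over each of them. For `N ≥ 1` the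
same holds for the Jacobians of `y ^ (N M) = F(x, t)`, taking for `U` the surface `w ^ N = F(x, t)`,
`w ≠ 0`, if `L(J_N / k(t), T)` has no positive real zero. -/
theorem result (k : Type) [Field k] [Finite k] (C B : Multiset ℂ) (hC : ∀ c ∈ C, IsIntegral ℤ c)
    (hB : ∀ b ∈ B, IsIntegral ℤ b) :
    ∃ S : Set ℕ, PositiveDensity S ∧ ∀ ℓ ∈ S, ℓ.Prime ∧ IsSquare ((Nat.card k : ℕ) : ZMod ℓ) ∧
      ∀ (j n d m : ℕ) (k' : Type) [Field k'] [Finite k'] [Algebra k k'] (ι : Type)
        (G : ι → MvPolynomial (Fin m) k') (Q : Set ι → Prop) (A : ClosedPoints G Q → Multiset ℂ)
        (P D : Multiset ℂ),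
        finrank k k' ∣ (ℓ - 1) / 2 * ℓ ^ j → HasPoints k G Q C B →
        (∀ z, (A z).card = d) → (∀ z, ∀ a ∈ A z, a ^ ℓ ^ n = 1) → (∀ b ∈ D, IsIntegral ℤ b) →
        lInverse G Q A * polynomialOf D = polynomialOf P →
          P.countP (IsHalfPower (Nat.card k')) + d * B.countP IsPositive ≤
            D.card + d * C.countP IsPositive ∧
          D.countP (IsHalfPower (Nat.card k')) + d * C.countP IsPositive ≤
            P.card + d * B.countP IsPositive := by
  obtain ⟨S, hS1, hS2⟩ := Pool.Agent.R413.CV.arith k hC hB
  refine ⟨S, hS1, fun ℓ hℓ => ?_⟩
  obtain ⟨h1, h2, h3⟩ := hS2 ℓ hℓ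
  refine ⟨h1, h2, ?_⟩
  intro j n d m k' _ _ _ ι G Q A P D hdeg hpts hd hA hD hl
  have hfd : Module.Finite k k' := Module.Finite.of_finite
  have hq : Nat.card k' = Nat.card k ^ finrank k k' := Module.natCard_eq_pow_finrank
  have hr0 : finrank k k' ≠ 0 := finrank_pos.ne'
  have h4 := h3 j n d (finrank k k') hdeg hr0 (ClosedPoints G Q) (fun z => deg m k' z.1) A P D
    (Pool.Agent.R413.DT.finite_closed G Q) hd hA hD (Pool.Agent.R413.CV.zeta_ext hpts) hl
  rw [← hq] at h4
  simp only [Multiset.countP_eq_card_filter]
  exact h4

end Pool.Agent.Results.MP_60d5ce_nt.ArithmeticCoverings
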