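import Pool.Agent.R427.TW7

/-!
# Towers of quadratic twists of elliptic curves with a point of order five

Let `5` divide `q - 1`. For a polynomial `D` of odd degree over the field `k` with `q` elements with
`D(0)` not a square, the fields `k(t, √D(t ^ (5 ^ n)))` have class numbers prime to five if this holds
for `n = 0`, and the twists of the curves `E_g` with a point of order five by `D(t ^ (5 ^ n))` have order
of vanishing at most the number of their places of split multiplicative reduction.
-/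

set_option autoImplicit false
set_option linter.all false
set_option maxHeartbeats 4000000

open Polynomial Pool.Agent.W343.BSD Pool.Agent.W313.Gr

namespace Pool.Agent.Results.MP_60d5ce_nt.FiveTorsionTowers

section defs

/-- The coefficient of `x` of the curve `E_g`. -/
def coeffA {K : Type} [Field K] (g : K) : K := -27 * (g ^ 4 - 12 * g ^ 3 + 14 * g ^ 2 + 12 * g + 1)

/-- The constant coefficient of the curve `E_g`. -/
def coeffB {K : Type} [Field K] (g : K) : K :=
  54 * (g ^ 6 - 18 * g ^ 5 + 75 * g ^ 4 + 75 * g ^ 2 + 18 * g + 1)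

/-- The coefficient of `x` of the twist of `E_g` by `u`. -/
def twistA {K : Type} [Field K] (u g : K) : K := u ^ 2 * coeffA g

/-- The constant coefficient of the twist of `E_g` by `u`. -/
def twistB {K : Type} [Field K] (u g : K) : K := u ^ 3 * coeffB g

open Classical in
/-- The sum of `5 ^ v₅(deg v)` over the places `v` of split multiplicative reduction (bad reduction and
`a_v = 1`) of `y ^ 2 = x ^ 3 + a x + b`. -/
noncomputable def splitSum (k : Type) {K : Type} [Field k] [Field K] [Algebra k K] (a b : K) : ℕ :=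
  ∑ᶠ v : FF.Place k K,
    if v.ord (minDisc v a b) ≠ 0 ∧ S.trace v a b = 1 then 5 ^ padicValNat 5 (S.deg v) else 0

/-- `y ^ 2 = x ^ 3 + a x + b` is an elliptic curve with a non-constant `j`-invariant
`6912 a ^ 3 / (4 a ^ 3 + 27 b ^ 2)`. -/
def NonIsotrivial (k : Type) {K : Type} [Field k] [Field K] [Algebra k K] (a b : K) : Prop :=
  4 * a ^ 3 + 27 * b ^ 2 ≠ 0 ∧
    ∀ c : k, 6912 * a ^ 3 / (4 * a ^ 3 + 27 * b ^ 2) ≠ algebraMap k K c

/-- If `L(T, E)` is `(1 - |k| T) ^ m G(T)` with `G` in `ℤ[T]` then `m ≤ N`. -/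
def OrderBound (k : Type) {K : Type} [Field k] [Field K] [Algebra k K] (a b : K) (N : ℕ) : Prop :=
  ∀ m : ℕ, S.VanishesTo k a b m → m ≤ N

/-- The rank is at least `R` and the order of vanishing `r` of `L(T, E)` at `T = 1 / |k|` (if
`L(T, E)` is a polynomial) is at most `R`. If the rank is at most the order then both are `R`. -/
def RankAndOrder (k : Type) {K : Type} [Field k] [Field K] [Algebra k K] (a b : K) (R : ℕ) : Prop :=
  R ≤ rank a b ∧ OrderBound k a b R ∧
    ∀ r : ℕ, HasOrder k a b r → r ≤ R ∧ (rank a b ≤ r → r = R ∧ rank a b = R)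

/-- `L` is the function field of a curve over `k` and is `k(t, √D)`. -/
def IsQuadField (k L : Type) [Field k] [Field L] [Algebra k L] [Algebra (RatFunc k) L]
    (D : k[X]) : Prop :=
  IsCurveField k L ∧ ∃ θ : L, θ ^ 2 = algebraMap (RatFunc k) L (algebraMap k[X] (RatFunc k) D) ∧
    IntermediateField.adjoin (RatFunc k) {θ} = ⊤

/-- The class number of `k(t, √D)` is prime to five. -/
def ClassPrime {k : Type} [Field k] (D : k[X]) : Prop :=
  ∀ (L : Type) [Field L] [Algebra k L] [Algebra (RatFunc k) L] [IsScalarTower k (RatFunc k) L],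
    IsQuadField k L D → ¬ 5 ∣ S.classNumber k L

/-- The twist of `E_g` by `D` has a non-constant `j`-invariant, its order of vanishing is at most
`splitSum`, and if the rank is at least `R` and `splitSum` at most `R` then `RankAndOrder` holds. -/
def TwistOK {k : Type} [Field k] (D : k[X]) (g : RatFunc k) : Prop :=
  NonIsotrivial k (twistA (algebraMap k[X] (RatFunc k) D) g)
    (twistB (algebraMap k[X] (RatFunc k) D) g) ∧
  OrderBound k (twistA (algebraMap k[X] (RatFunc k) D) g) (twistB (algebraMap k[X] (RatFunc k) D) g)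
    (splitSum k (twistA (algebraMap k[X] (RatFunc k) D) g)
      (twistB (algebraMap k[X] (RatFunc k) D) g)) ∧
  ∀ R : ℕ, R ≤ rank (twistA (algebraMap k[X] (RatFunc k) D) g)
      (twistB (algebraMap k[X] (RatFunc k) D) g) →
    splitSum k (twistA (algebraMap k[X] (RatFunc k) D) g)
      (twistB (algebraMap k[X] (RatFunc k) D) g) ≤ R →
    RankAndOrder k (twistA (algebraMap k[X] (RatFunc k) D) g)
      (twistB (algebraMap k[X] (RatFunc k) D) g) R

/-- `RankAndOrder` holds with `R = 0` for the twist of `E_t` by `c t ^ (5 ^ n) + a`. -/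
def RankZero {k : Type} [Field k] (c a : k) (n : ℕ) : Prop :=
  RankAndOrder k (twistA (algebraMap k[X] (RatFunc k) (C c * X ^ 5 ^ n + C a)) RatFunc.X)
    (twistB (algebraMap k[X] (RatFunc k) (C c * X ^ 5 ^ n + C a)) RatFunc.X) 0

end defs

section proof

open Pool.Agent.R427

theorem thirty {k : Type} [Field k] (h : (30 : k) ≠ 0) :
    (2 : k) ≠ 0 ∧ (3 : k) ≠ 0 ∧ (5 : k) ≠ 0 :=
  ⟨fun e => h (by linear_combination 15 * e), fun e => h (by linear_combination 10 * e),
    fun e => h (by linear_combination 6 * e)⟩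

/-- twists have the same `j`-invariant -/
theorem noniso_twist {k K : Type} [Field k] [Field K] [Algebra k K] {a b u : K} (hu : u ≠ 0)
    (hΔ : 4 * a ^ 3 + 27 * b ^ 2 ≠ 0)
    (h : ∀ c : k, 6912 * a ^ 3 ≠ algebraMap k K c * (4 * a ^ 3 + 27 * b ^ 2)) :
    NonIsotrivial k (u ^ 2 * a) (u ^ 3 * b) := by
  have e : 4 * (u ^ 2 * a) ^ 3 + 27 * (u ^ 3 * b) ^ 2 = u ^ 6 * (4 * a ^ 3 + 27 * b ^ 2) := by ring
  have hu6 : u ^ 6 ≠ 0 := pow_ne_zero 6 hu
  refine ⟨by rw [e]; exact mul_ne_zero hu6 hΔ, fun c hc => ?_⟩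
  rw [e, div_eq_iff (mul_ne_zero hu6 hΔ)] at hc
  apply h c
  apply mul_left_cancel₀ hu6
  linear_combination hc

theorem twistOK {k : Type} [Field k] [Finite k] (h : (30 : k) ≠ 0) (hq : 5 ∣ Nat.card k - 1)
    {D : k[X]} (hD : D ≠ 0) (hnr : TW.NR 5 (Pool.Agent.W309.RF.A D)) {g : RatFunc k}
    (hg : ∀ c : k, g ≠ algebraMap k (RatFunc k) c) : TwistOK D g := by
  obtain ⟨h2, h3, h5⟩ := thirty h
  have htr : Transcendental k g := TH180.R2.transc Pool.Agent.W309.RF.constDeg_rat hg
  obtain ⟨g0, g1, hΔ⟩ := FT.ne_facts h2 h3 htr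
  have hA := Pool.Agent.W309.RF.A_ne hD
  have hb : OrderBound k (twistA (algebraMap k[X] (RatFunc k) D) g)
      (twistB (algebraMap k[X] (RatFunc k) D) g)
      (splitSum k (twistA (algebraMap k[X] (RatFunc k) D) g)
        (twistB (algebraMap k[X] (RatFunc k) D) g)) :=
    fun m hm => TW.twist_nr h2 h3 h5 hq g0 g1 hA hnr hm
  refine ⟨noniso_twist hA hΔ (FT.noniso h2 h3 htr), hb, fun R hR hw => ?_⟩
  have hU : OrderBound k (twistA (algebraMap k[X] (RatFunc k) D) g)
      (twistB (algebraMap k[X] (RatFunc k) D) g) R := fun m hm => (hb m hm).trans hw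
  exact ⟨hR, hU, fun r hr => TH180.R4.concl4 hR hU r hr⟩

theorem odd_facts {k : Type} [Field k] [Finite k] {D : k[X]} (hD : Odd D.natDegree) :
    D ≠ 0 ∧ ∀ s : RatFunc k, Pool.Agent.W309.RF.A D ≠ s ^ 2 := by
  have h0 : D ≠ 0 := by
    rintro rfl
    rw [natDegree_zero] at hD
    exact absurd hD (by decide)
  refine ⟨h0, fun s h => ?_⟩
  have h1 := congrArg (Pool.Agent.W309.RF.infty k).ord h
  rw [FF.Place.ord_pow, Pool.Agent.W309.RF.inf_ord' Pool.Agent.W309.RF.infty_X h0] at h1
  obtain ⟨m, hm⟩ := hD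
  rw [hm] at h1
  push_cast at h1
  omega

theorem class_iff {k : Type} [Field k] [Finite k] (h : (30 : k) ≠ 0) {D : k[X]}
    (hD : Odd D.natDegree) (L : Type) [Field L] [Algebra k L] [Algebra (RatFunc k) L]
    [IsScalarTower k (RatFunc k) L] (hL : IsQuadField k L D) :
    TW.NR 5 (Pool.Agent.W309.RF.A D) ↔ ¬ 5 ∣ S.classNumber k L := by
  have : Fact (Nat.Prime 5) := ⟨Nat.prime_five⟩
  obtain ⟨h2, h3, h5⟩ := thirty h
  have h6 : (6 : k) ≠ 0 := by
    have : (6 : k) = 2 * 3 := by norm_num
    rw [this]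
    exact mul_ne_zero h2 h3
  obtain ⟨hcf, θ, hθ, htop⟩ := hL
  haveI : FF.IsFF k L := ⟨hcf.essFiniteType, hcf.trdeg_eq_one⟩
  have hr : constDeg k L = 1 := TH958.T4.constDeg_eq_one hcf.algClosed
  obtain ⟨hD0, hns⟩ := odd_facts hD
  obtain ⟨Q, hQ, hQ1⟩ := exists_num_rel (k := k) (F := L)
  rw [TW.nr_iff h6 (Pool.Agent.W309.RF.A_ne hD0) hns hθ htop hr hQ, hQ1, S.classNumber_eq]
  exact not_congr (by exact_mod_cast Iff.rfl)

end proof

/-- Let `k` be a finite field of characteristic at least `7` with `q` elements and let `5` divide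
`q - 1`. For `g` in `k(t)` let `E_g` be the curve `y ^ 2 = x ^ 3 + A(g) x + B(g)` with
`A = -27 (g ^ 4 - 12 g ^ 3 + 14 g ^ 2 + 12 g + 1)` and
`B = 54 (g ^ 6 - 18 g ^ 5 + 75 g ^ 4 + 75 g ^ 2 + 18 g + 1)`, which has a point of order five.

(1) Let `D` in `k[t]` be a polynomial of odd degree for which `D(0)` is not a square and such that the
class number of `k(t, √D)` is prime to five. Then for all `n` and `D_n = D(t ^ (5 ^ n))` the class
number of `k(t, √D_n)` is prime to five, and for all non-constant `g` in `k(t)` the twist of `E_g` by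
`D_n` has a non-constant `j`-invariant and its `L`-function vanishes at `1 / q` to order at most
the number `W` of its places of split multiplicative reduction, a place `v` counted with the
multiplicity `5 ^ v₅(deg v)`. If its rank is at least `R` and `W` is at most `R` then the order is at
most `R`, and if the rank is at most the order, then both are `R`.

(2) For `a` in `k` which is not a square and all `n` there is `c` not zero in `k` such that the
last conclusion of (1) holds with `R = 0` for the twist of `E_t` by `c t ^ (5 ^ n) + a`. For all `a`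
which are not squares there is `c` not zero such that this holds for infinitely many `n`. -/
theorem result (k : Type) [Field k] [Finite k] (h : (30 : k) ≠ 0) (hq : 5 ∣ Nat.card k - 1) :
    (∀ D : k[X], Odd D.natDegree → ¬ IsSquare (D.eval 0) →
      ∀ (L : Type) [Field L] [Algebra k L] [Algebra (RatFunc k) L] [IsScalarTower k (RatFunc k) L],
        IsQuadField k L D → ¬ 5 ∣ S.classNumber k L →
          ∀ n : ℕ, ClassPrime (D.comp (X ^ 5 ^ n)) ∧
            ∀ g : RatFunc k, (∀ c : k, g ≠ algebraMap k (RatFunc k) c) →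
              TwistOK (D.comp (X ^ 5 ^ n)) g) ∧
    ∀ a : k, ¬ IsSquare a →
      (∀ n : ℕ, ∃ c : k, c ≠ 0 ∧ RankZero c a n) ∧
      ∃ c : k, c ≠ 0 ∧ {n : ℕ | RankZero c a n}.Infinite := by
  classical
  have : Fact (Nat.Prime 5) := ⟨Nat.prime_five⟩
  obtain ⟨h2, h3, h5⟩ := thirty h
  have h6 : (6 : k) ≠ 0 := by
    have : (6 : k) = 2 * 3 := by norm_num
    rw [this]
    exact mul_ne_zero h2 h3
  constructor
  · intro D hD h0 L _ _ _ _ hL hcl n
    have hnr := (class_iff h hD L hL).2 hcl
    have hnr' := Pool.Agent.R427.TW.nr_tower Pool.Agent.R427.TW.five_odd h6 hq hD h0 hnr n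
    have hodd := Pool.Agent.R427.TW.comp_odd Pool.Agent.R427.TW.five_odd hD n
    refine ⟨?_, fun g hg => twistOK h hq (odd_facts hodd).1 hnr' hg⟩
    intro L' _ _ _ _ hL'
    exact (class_iff h hodd L' hL').1 hnr'
  · intro a ha
    have hk : 10 ≤ Nat.card k := by
      obtain ⟨m, hm⟩ := hq
      have hq1 : 1 < Nat.card k := Finite.one_lt_card
      by_contra hlt
      have hm1 : m = 1 := by omega
      rw [hm1] at hm
      have h7 : Nat.card k = 6 := by omega
      letI : Fintype k := Fintype.ofFinite k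
      have h8 : ((Fintype.card k : ℕ) : k) = 0 := FiniteField.cast_card_eq_zero k
      rw [← Nat.card_eq_fintype_card, h7] at h8
      exact h6 (by exact_mod_cast h8)
    have key : ∀ n : ℕ, ∃ c : k, c ≠ 0 ∧ RankZero c a n := by
      intro n
      obtain ⟨c, hc, hm⟩ := Pool.Agent.R427.TW.exists_tower h2 h3 h5 hk hq ha n
      refine ⟨c, hc, ?_⟩
      have hU : OrderBound k (twistA (algebraMap k[X] (RatFunc k) (C c * X ^ 5 ^ n + C a))
          RatFunc.X) (twistB (algebraMap k[X] (RatFunc k) (C c * X ^ 5 ^ n + C a)) RatFunc.X) 0 :=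
        fun m h1 => (hm m h1).le
      have hR : ((0 : ℕ) : Cardinal) ≤ rank (twistA (algebraMap k[X] (RatFunc k)
          (C c * X ^ 5 ^ n + C a)) RatFunc.X) (twistB (algebraMap k[X] (RatFunc k)
          (C c * X ^ 5 ^ n + C a)) RatFunc.X) := by
        rw [Nat.cast_zero]; exact zero_le
      exact ⟨hR, hU, fun r hr => Pool.Agent.TH180.R4.concl4 hR hU r hr⟩
    refine ⟨key, ?_⟩
    choose f hf0 hf using key
    obtain ⟨c, hc⟩ := Finite.exists_infinite_fiber f
    rw [Set.infinite_coe_iff] at hc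
    obtain ⟨n, hn⟩ := hc.nonempty
    refine ⟨c, ?_, hc.mono ?_⟩
    · rw [← (show f n = c from hn)]
      exact hf0 n
    · intro m hm
      have e : f m = c := hm
      show RankZero c a m
      rw [← e]
      exact hf m

end Pool.Agent.Results.MP_60d5ce_nt.FiveTorsionTowers
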