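import Pool.Agent.R427.TW17

/-!
# Quadratic twists of elliptic curves with a point of order three over extensions of three-power degree

Let `K` be the function field of a curve over the field `k` with `q` elements, `3` a divisor of
`q - 1`, and `K(√u)` a quadratic extension with class number prime to three. Over every subfield `L` of
a Galois extension of `K` of degree a power of three in which no place ramifies that splits in
`K(√u)`, the order of vanishing of the twists by `u` of the elliptic curves with a point of order three
is bounded in terms of the places of bad reduction which split in `L(√u)`.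
-/

set_option autoImplicit false
set_option linter.all false
set_option maxHeartbeats 4000000

open Polynomial Pool.Agent.W343.BSD Pool.Agent.W313.Gr

namespace Pool.Agent.Results.MP_60d5ce_nt.ThreeTorsionTwists

section defs

variable {k K : Type} [Field k] [Field K] [Algebra k K]

open Classical in
/-- `y ^ 2 = x ^ 3 + a x + b` is an elliptic curve with a `K`-rational point of order three. -/
def HasPointOfOrderThree (a b : K) : Prop :=
  4 * a ^ 3 + 27 * b ^ 2 ≠ 0 ∧ ∃ P : (curve a b).toAffine.Point, addOrderOf P = 3

/-- The curve `y ^ 2 = x ^ 3 + a x + b` has bad reduction at `v`. -/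
def IsBad (v : FF.Place k K) (a b : K) : Prop := v.ord (minDisc v a b) ≠ 0

/-- The element `u` is a square in the completion of `K` at `v`: if `u` is not a square in `K`, then
`v` splits in `K(√u)`. -/
def Splits (v : FF.Place k K) (u : K) : Prop :=
  ∃ s : K, u = s ^ 2 ∨ v.ord u < v.ord (u - s ^ 2)

open Classical in
/-- The sum of `3 ^ v₃(deg v)` over the places `v` of bad reduction of `y ^ 2 = x ^ 3 + a x + b` which
split in `K(√u)`, where the places of additive reduction (`a_v = 0`) are counted twice. -/
noncomputable def splitSum (k : Type) {K : Type} [Field k] [Field K] [Algebra k K] (a b u : K) : ℕ :=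
  ∑ᶠ v : FF.Place k K, if IsBad v a b ∧ Splits v u then
    (if S.trace v a b = 0 then 2 else 1) * 3 ^ padicValNat 3 (S.deg v) else 0

/-- If `L(T, E)` is `(1 - |k| T) ^ m G(T)` with `G` in `ℤ[T]` then `m ≤ N`. -/
def OrderBound (k : Type) {K : Type} [Field k] [Field K] [Algebra k K] (a b : K) (N : ℕ) : Prop :=
  ∀ m : ℕ, S.VanishesTo k a b m → m ≤ N

/-- The order of vanishing of `L(T, E)` at `T = 1 / |k|` is zero, and so is the rank if it is at most
this order. -/
def RankZero (k : Type) {K : Type} [Field k] [Field K] [Algebra k K] (a b : K) : Prop :=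
  OrderBound k a b 0 ∧ ∀ r : ℕ, HasOrder k a b r → r = 0 ∧ (rank a b ≤ r → rank a b = 0)

/-- `M` is the function field of a curve over `k` and is `K(√u)`. -/
def IsQuadField (k K M : Type) [Field k] [Field K] [Field M] [Algebra k M] [Algebra K M] (u : K) :
    Prop :=
  IsCurveField k M ∧ ∃ θ : M, θ ^ 2 = algebraMap K M u ∧ IntermediateField.adjoin K {θ} = ⊤

/-- `L'` is a Galois extension of `K` of degree a power of three in which the places of `K` in `T` are
not ramified. -/
def IsThreeExtension (k K L' : Type) [Field k] [Field K] [Field L'] [Algebra k K] [Algebra k L']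
    [Algebra K L'] (T : Set (FF.Place k K)) : Prop :=
  FiniteDimensional K L' ∧ IsGalois K L' ∧ (∃ n : ℕ, Module.finrank K L' = 3 ^ n) ∧
    ∀ v ∈ T, ∀ (w : FF.Place k L') (e : ℕ), 0 < e →
      (∀ x : K, w.ord (algebraMap K L' x) = e * v.ord x) → e = 1

/-- The field `L` is contained in a Galois extension of `K` of degree a power of three in which the
places of `K` in `T` are not ramified. -/
def InThreeExtension (k K L : Type) [Field k] [Field K] [Field L] [Algebra k K] [Algebra k L]
    [Algebra K L] (T : Set (FF.Place k K)) : Prop :=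
  ∃ (L' : Type) (_ : Field L') (_ : Algebra k L') (_ : Algebra K L') (_ : Algebra L L'),
    IsScalarTower k K L' ∧ IsScalarTower K L L' ∧ IsThreeExtension k K L' T

/-- For all elliptic curves `E` over `L` with a point of order three the order of vanishing of the
twist by `u` is at most `splitSum`; and for all elliptic curves over `K` with a `K`-rational point of
order three for which no place of bad reduction splits in `K(√u)`, the order of vanishing of the twist
by `u` over `L` is zero, and so is the rank if it is at most the order. -/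
def Bounds (k : Type) {K : Type} (L : Type) [Field k] [Field K] [Field L] [Algebra k K]
    [Algebra k L] [Algebra K L] (u : K) : Prop :=
  (∀ a b : L, HasPointOfOrderThree a b →
    OrderBound k (algebraMap K L u ^ 2 * a) (algebraMap K L u ^ 3 * b)
      (splitSum k a b (algebraMap K L u))) ∧
  ∀ a b : K, HasPointOfOrderThree a b → (∀ v : FF.Place k K, IsBad v a b → ¬ Splits v u) →
    RankZero k (algebraMap K L (u ^ 2 * a)) (algebraMap K L (u ^ 3 * b))

/-- The place `v` of `k(t)` is a point of the projective line over the subfield `F`. -/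
def IsPointOver (F : Type) {k : Type} [Field F] [Field k] [Algebra F k]
    (v : FF.Place k (RatFunc k)) : Prop :=
  v.ord RatFunc.X < 0 ∨
    ∃ γ : F, 0 < v.ord (RatFunc.X - algebraMap k (RatFunc k) (algebraMap F k γ))

/-- `y ^ 2 = x ^ 3 + a x + b` is an elliptic curve over `k(t)` with a `k(t)`-rational point of order
three and with good reduction outside the points of the projective line over `F`. -/
def IsGoodCurve (F : Type) {k : Type} [Field F] [Field k] [Algebra F k] (a b : RatFunc k) : Prop :=
  HasPointOfOrderThree a b ∧ ∀ v : FF.Place k (RatFunc k), IsBad v a b → IsPointOver F v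

/-- The element `c (r t + s)`. -/
noncomputable def linearFactor {F k : Type} [Field F] [Field k] [Algebra F k] (c : k) (r s : F) :
    RatFunc k :=
  algebraMap k[X] (RatFunc k) (C (c * algebraMap F k r) * X + C (c * algebraMap F k s))

end defs

section proof

open Pool.Agent.R427

theorem rankZero_of {k K : Type} [Field k] [Finite k] [Field K] [Algebra k K] [FF.IsFF k K]
    {a b : K} (h : ∀ m : ℕ, S.VanishesTo k a b m → m = 0) : RankZero k a b := by
  have hU : OrderBound k a b 0 := fun m hm => (h m hm).le
  have hR : ((0 : ℕ) : Cardinal) ≤ rank a b := by rw [Nat.cast_zero]; exact zero_le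
  refine ⟨hU, fun r hr => ?_⟩
  obtain ⟨h1, h2⟩ := Pool.Agent.TH180.R4.concl4 hR hU r hr
  exact ⟨Nat.le_zero.1 h1, fun hle => by rw [(h2 hle).2, Nat.cast_zero]⟩

theorem three_data {k K : Type} [Field k] [Finite k] [Field K] [Algebra k K] (h6 : (6 : k) ≠ 0)
    {a b : K} (h : HasPointOfOrderThree a b) :
    ∃ α β : K, β ≠ 0 ∧ TH639.B3.IsT3 a b α β := by
  classical
  obtain ⟨-, P, hP⟩ := h
  have h2 : (2 : k) ≠ 0 := by
    intro h; apply h6
    have : (6 : k) = 2 * 3 := by norm_num
    rw [this, h, zero_mul]
  have h2K : (2 : K) ≠ 0 := by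
    have : algebraMap k K 2 ≠ 0 := by simpa using h2
    rwa [map_ofNat] at this
  refine TH639.B3.isT3_of_order h2K P ?_
  convert hP

theorem splitSum_eq {k K : Type} [Field k] [Field K] [Algebra k K] (a b u : K) :
    splitSum k a b u = ∑ᶠ v : FF.Place k K, TW.spW v a b u := by
  classical
  unfold splitSum TW.spW
  refine finsum_congr fun v => ?_
  by_cases h : v.ord (minDisc v a b) ≠ 0 ∧ TH639.B3.LocSq v u
  · have h' : IsBad v a b ∧ Splits v u := h
    rw [if_pos h, if_pos h']
  · have h' : ¬ (IsBad v a b ∧ Splits v u) := h
    rw [if_neg h, if_neg h']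

theorem bounds_of {k K L : Type} [Field k] [Finite k] [Field K] [Algebra k K] [FF.IsFF k K]
    [Field L] [Algebra k L] [Algebra K L] [IsScalarTower k K L] (h6 : (6 : k) ≠ 0)
    (hq : 3 ∣ Nat.card k - 1) {u : K} (hu : u ≠ 0) {T : Set (FF.Place k K)}
    (hT : ∀ v, Splits v u → v ∈ T) (hL : InThreeExtension k K L T) (h : TW.NRel 3 k u) :
    Bounds k L u := by
  have : Fact (Nat.Prime 3) := ⟨Nat.prime_three⟩
  obtain ⟨L', i1, i2, i3, i4, t1, t2, hfd, hgal, ⟨N, hN⟩, hram⟩ := hL
  obtain ⟨ζ, hζ⟩ := TW.exists_prim (k := k) Nat.prime_three hq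
  have hfdL : FiniteDimensional L L' := Module.Finite.of_restrictScalars_finite K L L'
  have hfdKL : FiniteDimensional K L := Module.Finite.left K L L'
  obtain ⟨n, -, hn⟩ : ∃ n ≤ N, Module.finrank K L = 3 ^ n := by
    rw [← Nat.dvd_prime_pow Nat.prime_three, ← hN, ← Module.finrank_mul_finrank K L L']
    exact dvd_mul_right _ _
  have hNR : TW.NRel 3 k (algebraMap K L u) := by
    refine TW.rel_sub (by decide) h6 (three_ne h6) hζ n K L L' N hN hn u hu ?_ h
    rintro v ⟨w, e, hov, he⟩ h1
    exact he (hram v (hT v (TW.chi_one_iff.1 h1)) w e hov.1 hov.2)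
  have hFFL : FF.IsFF k L := isFF_of_finite (K := K)
  have huL : algebraMap K L u ≠ 0 := (_root_.map_ne_zero _).2 hu
  constructor
  · intro a b hab m hm
    obtain ⟨α, β, hβ, hT3⟩ := three_data (k := k) h6 hab
    rw [splitSum_eq]
    exact TW.twist_three h6 hq hT3 hβ hab.1 huL hNR hm
  · intro a b hab hns
    obtain ⟨α, β, hβ, hT3⟩ := three_data (k := k) h6 hab
    have hΔ := hab.1
    have hT3' : TH639.B3.IsT3 (algebraMap K L a) (algebraMap K L b) (algebraMap K L α)
        (algebraMap K L β) := by
      obtain ⟨e1, e2⟩ := hT3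
      have e3 := congrArg (algebraMap K L) e1
      have e4 := congrArg (algebraMap K L) e2
      simp only [map_mul, map_sub, map_add, map_pow, map_ofNat] at e3 e4
      exact ⟨e3, e4⟩
    have hΔ' : 4 * algebraMap K L a ^ 3 + 27 * algebraMap K L b ^ 2 ≠ 0 := by
      rw [disc_map]
      exact (_root_.map_ne_zero _).2 hΔ
    apply rankZero_of
    intro m hm
    rw [map_mul, map_pow, map_mul, map_pow] at hm
    have h1 := TW.twist_three h6 hq hT3' ((_root_.map_ne_zero _).2 hβ) hΔ' huL hNR hm
    have h2 : ∑ᶠ w : FF.Place k L, TW.spW w (algebraMap K L a) (algebraMap K L b)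
        (algebraMap K L u) = 0 := by
      rw [finsum_congr (g := fun _ => 0), finsum_zero]
      intro w
      exact TW.spW_zero_sub L' h6 (by rw [hN]; exact Odd.pow (by decide)) hΔ hu hns w
    omega

theorem three_dvd {F k : Type} [Field F] [Finite F] [Field k] [Finite k] [Algebra F k]
    (h3 : (3 : k) ≠ 0) (hev : Even (Module.finrank F k)) : 3 ∣ Nat.card k - 1 := by
  have h3F : (3 : F) ≠ 0 := by
    intro h
    apply h3
    have := congrArg (algebraMap F k) h
    rwa [map_ofNat, map_zero] at this
  have hcard : Nat.card k = Nat.card F ^ Module.finrank F k := Module.natCard_eq_pow_finrank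
  obtain ⟨m, hm⟩ := hev
  have hF3 : ¬ 3 ∣ Nat.card F := by
    intro hd
    apply h3F
    let _ : Fintype F := Fintype.ofFinite F
    obtain ⟨p, hp⟩ := CharP.exists F
    have hpp : p.Prime := CharP.char_is_prime F p
    obtain ⟨n, -, hn⟩ := FiniteField.card F p
    rw [Nat.card_eq_fintype_card, hn] at hd
    have h9 := (Nat.prime_dvd_prime_iff_eq Nat.prime_three hpp).1
      (Nat.prime_three.dvd_of_dvd_pow hd)
    have h10 := CharP.cast_eq_zero F p
    rw [← h9] at h10
    exact_mod_cast h10
  rw [hcard, hm, ← two_mul, pow_mul]
  have h5 : Nat.card F ^ 2 % 3 = 1 := by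
    have h6 : Nat.card F % 3 = 1 ∨ Nat.card F % 3 = 2 := by omega
    rcases h6 with h6 | h6
    · rw [Nat.pow_mod, h6]
    · rw [Nat.pow_mod, h6]
  have h6 : (Nat.card F ^ 2) ^ m % 3 = 1 := by
    rw [Nat.pow_mod, h5, one_pow]
    norm_num
  omega

theorem zero_pts {F k L : Type} [Field F] [Finite F] [Field k] [Finite k] [Algebra F k]
    [Field L] [Algebra k L] [Algebra (RatFunc k) L] [IsScalarTower k (RatFunc k) L]
    (h6 : (6 : k) ≠ 0) (hev : Even (Module.finrank F k)) {c : k} (hc : ¬ IsSquare c) {r s : F}
    (hr : r ≠ 0) (hL : InThreeExtension k (RatFunc k) L {v | ¬ IsPointOver F v})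
    {a b : RatFunc k} (hab : IsGoodCurve F a b) :
    RankZero k (algebraMap (RatFunc k) L (linearFactor c r s ^ 2 * a))
      (algebraMap (RatFunc k) L (linearFactor c r s ^ 3 * b)) := by
  have : Fact (Nat.Prime 3) := ⟨Nat.prime_three⟩
  obtain ⟨h2, h3, h2K, h3K⟩ := TW.facts3 h6
  have hG : (C r * X + C s : F[X]) ≠ 0 := by
    intro h
    have h1 := natDegree_linear (b := s) hr
    rw [h, natDegree_zero] at h1
    norm_num at h1
  have hc0 : c ≠ 0 := by
    rintro rfl
    exact hc IsSquare.zero
  have e : (linearFactor c r s : RatFunc k) =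
      W309.RF.A (C c * (C r * X + C s : F[X]).map (algebraMap F k)) := by
    show algebraMap k[X] (RatFunc k) _ = algebraMap k[X] (RatFunc k) _
    congr 1
    rw [Polynomial.map_add, Polynomial.map_mul, Polynomial.map_C, Polynomial.map_X,
      Polynomial.map_C, C_mul, C_mul]
    ring
  have hu0 : (linearFactor c r s : RatFunc k) ≠ 0 := by
    rw [e]
    refine W309.RF.A_ne (mul_ne_zero (C_ne_zero.2 hc0) ?_)
    exact (Polynomial.map_ne_zero_iff (algebraMap F k).injective).2 hG
  have hns : ∀ v : FF.Place k (RatFunc k), IsPointOver F v → ¬ Splits v (linearFactor c r s) := by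
    intro v hv
    rw [e]
    exact TW.nsq_over h2 hev hc hG hv
  have hr' : c * algebraMap F k r ≠ 0 := mul_ne_zero hc0 ((_root_.map_ne_zero _).2 hr)
  have hrel : TW.NRel 3 k (linearFactor c r s : RatFunc k) :=
    TW.nrel_of_nr (TW.nr_base (l := 3) h6 hr' (c * algebraMap F k s))
  exact (bounds_of h6 (three_dvd h3 hev) hu0 (fun v hv h => hns v h hv) hL hrel).2 a b hab.1
    fun v hv => hns v (hab.2 v hv)

end proof

/-- (1) Let `K` be the function field of a curve over the field `k` with `q` elements, of
characteristic at least five, let `3` divide `q - 1` and let `u` in `K` be not a square, such that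
`k` is the field of constants of `K(√u)` and the class number of `K(√u)` is prime to three. Let `L` be
contained in a Galois extension of `K` of degree a power of three in which no place of `K` ramifies
which splits in `K(√u)`. Then for every elliptic curve `E` over `L` with an `L`-rational point of order
three the `L`-function of the quadratic twist of `E` by `u` vanishes at `1 / q` to order at most the sum
of `3 ^ v₃(deg w)` over the places `w` of bad reduction of `E` which split in `L(√u)`, the places of
additive reduction being counted twice. If `E` is defined over `K` with a `K`-rational point of order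
three and no place of `K` of bad reduction of `E` splits in `K(√u)`, then over all these `L` the order
of vanishing of the twist of `E` by `u` is zero, and if the rank is at most the order then the rank is
zero.

(2) Let `F` be a finite field of characteristic at least five, let `k` be an extension of `F` of
even degree and let `S` be the set of the points of the projective line over `F`. Let `E` be an elliptic
curve over `k(t)` with a `k(t)`-rational point of order three and with good reduction outside `S`,
for example `y ^ 2 = x ^ 3 + (x + t) ^ 2`, with the short form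
`y ^ 2 = x ^ 3 + (2 t - 1 / 3) x + t ^ 2 - 2 t / 3 + 2 / 27`. Then for all `c` in `k` which are not
squares, all `r ≠ 0` and `s` in `F` and all `L` contained in Galois extensions of `k(t)` of degree a
power of three which are unramified outside `S`, the order of vanishing of the twist of `E` by
`c (r t + s)` over `L` is zero, and if the rank is at most the order then the rank is zero. -/
theorem result :
    (∀ (k K : Type) [Field k] [Finite k] [Field K] [Algebra k K], (6 : k) ≠ 0 →
      3 ∣ Nat.card k - 1 → IsCurveField k K → ∀ u : K, ¬ IsSquare u →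
      ∀ (M : Type) [Field M] [Algebra k M] [Algebra K M] [IsScalarTower k K M],
        IsQuadField k K M u → ¬ 3 ∣ S.classNumber k M →
      ∀ (L : Type) [Field L] [Algebra k L] [Algebra K L] [IsScalarTower k K L],
        InThreeExtension k K L {v | Splits v u} → Bounds k L u) ∧
    ∀ (F k : Type) [Field F] [Finite F] [Field k] [Finite k] [Algebra F k], (6 : k) ≠ 0 →
      Even (Module.finrank F k) →
      IsGoodCurve F (2 * RatFunc.X - 1 / 3 : RatFunc k)
        (RatFunc.X ^ 2 - 2 * RatFunc.X / 3 + 2 / 27) ∧
      ∀ a b : RatFunc k, IsGoodCurve F a b → ∀ c : k, ¬ IsSquare c → ∀ r s : F, r ≠ 0 →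
        ∀ (L : Type) [Field L] [Algebra k L] [Algebra (RatFunc k) L]
          [IsScalarTower k (RatFunc k) L],
          InThreeExtension k (RatFunc k) L {v | ¬ IsPointOver F v} →
            RankZero k (algebraMap (RatFunc k) L (linearFactor c r s ^ 2 * a))
              (algebraMap (RatFunc k) L (linearFactor c r s ^ 3 * b)) := by
  classical
  have : Fact (Nat.Prime 3) := ⟨Nat.prime_three⟩
  constructor
  · intro k K _ _ _ _ h6 hq hK u hu M _ _ _ _ hM hcl L _ _ _ _ hL
    have hFF : FF.IsFF k K := ⟨hK.essFiniteType, hK.trdeg_eq_one⟩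
    obtain ⟨hcf, θ, hθ, htop⟩ := hM
    have hFFM : FF.IsFF k M := ⟨hcf.essFiniteType, hcf.trdeg_eq_one⟩
    have hu0 : u ≠ 0 := by
      rintro rfl
      exact hu IsSquare.zero
    have hns : ∀ s : K, u ≠ s ^ 2 := fun s h => hu ⟨s, by rw [h, sq]⟩
    have hrel := Pool.Agent.R427.TW.nrel_of_class (l := 3) h6 hu0 hns hθ htop
      (Pool.Agent.TH958.T4.constDeg_eq_one hK.algClosed)
      (Pool.Agent.TH958.T4.constDeg_eq_one hcf.algClosed) hcl
    exact bounds_of h6 hq hu0 (fun v hv => hv) hL hrel
  · intro F k _ _ _ _ _ h6 hev
    obtain ⟨h2, h3, h2K, h3K⟩ := Pool.Agent.R427.TW.facts3 h6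
    refine ⟨⟨⟨Pool.Agent.R427.TW.disc_ex h6, ?_⟩, fun v hv => ?_⟩, ?_⟩
    · obtain ⟨P, hP⟩ := Pool.Agent.TH639.B3.order_of_isT3 h2K h3K RatFunc.X_ne_zero
        (Pool.Agent.R427.TW.isT3_ex h3K)
      refine ⟨P, ?_⟩
      convert hP
    · exact Pool.Agent.R427.TW.over_ex h6 hv
    · intro a b hab c hc r s hr L _ _ _ _ hL
      exact zero_pts h6 hev hc hr hL hab

end Pool.Agent.Results.MP_60d5ce_nt.ThreeTorsionTwists
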