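import Pool.Agent.R427.TW21

/-!
# Quadratic twists of semistable elliptic curves whose reductions have a number of points divisible by a prime

Let `K` be the function field of a curve over the field `k` with `q` elements, `l ≥ 5` a prime divisor of
`q - 1`, and `K(√u)` a quadratic extension with class number prime to `l`. Over every subfield `L` of
a Galois extension of `K` of degree a power of `l` in which no place ramifies that splits in `K(√u)`,
the order of vanishing of the twists by `u` of the semistable elliptic curves for which `l` divides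
the number of points of all good reductions is bounded in terms of the places of bad reduction which
split in `L(√u)`.
-/

set_option autoImplicit false
set_option linter.all false
set_option maxHeartbeats 4000000

open Polynomial Pool.Agent.W343.BSD Pool.Agent.W313.Gr

namespace Pool.Agent.Results.MP_60d5ce_nt.TwistsOddPrimes

section defs

variable {k K : Type} [Field k] [Field K] [Algebra k K]

/-- The curve `y ^ 2 = x ^ 3 + a x + b` has bad reduction at `v`. -/
def IsBad (v : FF.Place k K) (a b : K) : Prop := v.ord (minDisc v a b) ≠ 0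

/-- The curve `y ^ 2 = x ^ 3 + a x + b` is elliptic, the reduction at all places is good or
multiplicative (the coefficient of `x` of the minimal model is a unit), and `l` divides the number
of points of the reduction at all places of good reduction. -/
structure IsCurveMod (l : ℕ) (k : Type) {K : Type} [Field k] [Field K] [Algebra k K] (a b : K) :
    Prop where
  disc : 4 * a ^ 3 + 27 * b ^ 2 ≠ 0
  semistable : ∀ v : FF.Place k K, IsBad v a b → minA v a b ≠ 0 ∧ v.ord (minA v a b) = 0
  points : ∀ v : FF.Place k K, ¬ IsBad v a b → (l : ℤ) ∣ Nat.card (S.Res v) + 1 - S.trace v a b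

/-- The element `u` is a square in the completion of `K` at `v`: if `u` is not a square in `K`, then
`v` splits in `K(√u)`. -/
def Splits (v : FF.Place k K) (u : K) : Prop :=
  ∃ s : K, u = s ^ 2 ∨ v.ord u < v.ord (u - s ^ 2)

open Classical in
/-- The sum of `l ^ v_l(deg v)` over the places `v` of bad reduction of `y ^ 2 = x ^ 3 + a x + b` which
split in `K(√u)`, where the places with `a_v ≠ 1` are counted twice. -/
noncomputable def splitSum (l : ℕ) (k : Type) {K : Type} [Field k] [Field K] [Algebra k K]
    (a b u : K) : ℕ :=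
  ∑ᶠ v : FF.Place k K, if IsBad v a b ∧ Splits v u then
    (if S.trace v a b = 1 then 1 else 2) * l ^ padicValNat l (S.deg v) else 0

/-- If `L(T, E)` is `(1 - |k| T) ^ m G(T)` with `G` in `ℤ[T]` then `m ≤ N`. -/
def OrderBound (k : Type) {K : Type} [Field k] [Field K] [Algebra k K] (a b : K) (N : ℕ) : Prop :=
  ∀ m : ℕ, S.VanishesTo k a b m → m ≤ N

/-- The order of vanishing of `L(T, E)` at `T = 1 / |k|` is zero, and so is the rank if it is at most
this order. -/
def RankZero (k : Type) {K : Type} [Field k] [Field K] [Algebra k K] (a b : K) : Prop :=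
  OrderBound k a b 0 ∧ ∀ r : ℕ, HasOrder k a b r → r = 0 ∧ (rank a b ≤ r → rank a b = 0)

/-- `M` is the function field of a curve over `k` and is `K(√u)`. -/
def IsQuadField (k K M : Type) [Field k] [Field K] [Field M] [Algebra k M] [Algebra K M] (u : K) :
    Prop :=
  IsCurveField k M ∧ ∃ θ : M, θ ^ 2 = algebraMap K M u ∧ IntermediateField.adjoin K {θ} = ⊤

/-- `L'` is a Galois extension of `K` of degree a power of `l` in which the places of `K` in `T` are
not ramified. -/
def IsExtension (l : ℕ) (k K L' : Type) [Field k] [Field K] [Field L'] [Algebra k K]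
    [Algebra k L'] [Algebra K L'] (T : Set (FF.Place k K)) : Prop :=
  FiniteDimensional K L' ∧ IsGalois K L' ∧ (∃ n : ℕ, Module.finrank K L' = l ^ n) ∧
    ∀ v ∈ T, ∀ (w : FF.Place k L') (e : ℕ), 0 < e →
      (∀ x : K, w.ord (algebraMap K L' x) = e * v.ord x) → e = 1

/-- The field `L` is contained in a Galois extension of `K` of degree a power of `l` in which the
places of `K` in `T` are not ramified. -/
def InExtension (l : ℕ) (k K L : Type) [Field k] [Field K] [Field L] [Algebra k K] [Algebra k L]
    [Algebra K L] (T : Set (FF.Place k K)) : Prop :=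
  ∃ (L' : Type) (_ : Field L') (_ : Algebra k L') (_ : Algebra K L') (_ : Algebra L L'),
    IsScalarTower k K L' ∧ IsScalarTower K L L' ∧ IsExtension l k K L' T

/-- For all curves over `L` as in `IsCurveMod` the order of vanishing of the twist by `u` is at most
`splitSum`; and for all curves over `K` as in `IsCurveMod` for which no place of bad reduction splits
in `K(√u)`, the order of vanishing of the twist by `u` over `L` is zero, and so is the rank if it is
at most the order. -/
def Bounds (l : ℕ) (k : Type) {K : Type} (L : Type) [Field k] [Field K] [Field L] [Algebra k K]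
    [Algebra k L] [Algebra K L] (u : K) : Prop :=
  (∀ a b : L, IsCurveMod l k a b →
    OrderBound k (algebraMap K L u ^ 2 * a) (algebraMap K L u ^ 3 * b)
      (splitSum l k a b (algebraMap K L u))) ∧
  ∀ a b : K, IsCurveMod l k a b → (∀ v : FF.Place k K, IsBad v a b → ¬ Splits v u) →
    RankZero k (algebraMap K L (u ^ 2 * a)) (algebraMap K L (u ^ 3 * b))

/-- The place `v` of `k(t)` is a point of the projective line over the subfield `F`. -/
def IsPointOver (F : Type) {k : Type} [Field F] [Field k] [Algebra F k]
    (v : FF.Place k (RatFunc k)) : Prop :=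
  v.ord RatFunc.X < 0 ∨
    ∃ γ : F, 0 < v.ord (RatFunc.X - algebraMap k (RatFunc k) (algebraMap F k γ))

/-- The element `c (r t + s)`. -/
noncomputable def linearFactor {F k : Type} [Field F] [Field k] [Algebra F k] (c : k) (r s : F) :
    RatFunc k :=
  algebraMap k[X] (RatFunc k) (C (c * algebraMap F k r) * X + C (c * algebraMap F k s))

open Classical in
/-- `y ^ 2 = x ^ 3 + a x + b` is an elliptic curve with a `K`-rational point of order `l`. -/
def HasPointOfOrder (l : ℕ) (a b : K) : Prop :=
  4 * a ^ 3 + 27 * b ^ 2 ≠ 0 ∧ ∃ P : (curve a b).toAffine.Point, addOrderOf P = l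

end defs

section proof

open Pool.Agent.R427

theorem IsCurveMod.semi {l : ℕ} {k K : Type} [Field k] [Field K] [Algebra k K] {a b : K}
    (h : IsCurveMod l k a b) (v : FF.Place k K) : TW.SemiAt v a b := by
  by_cases hv : v.ord (minDisc v a b) = 0
  · exact Or.inl hv
  · exact Or.inr (h.semistable v hv)

theorem IsCurveMod.pts {l : ℕ} {k K : Type} [Field k] [Field K] [Algebra k K] {a b : K}
    (h : IsCurveMod l k a b) : PointsDvd l k a b :=
  fun v hv => h.points v fun h1 => h1 hv

theorem isCurveMod_of {l : ℕ} {k K : Type} [Field k] [Field K] [Algebra k K] {a b : K}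
    (hΔ : 4 * a ^ 3 + 27 * b ^ 2 ≠ 0) (hS : ∀ v : FF.Place k K, TW.SemiAt v a b)
    (hP : PointsDvd l k a b) : IsCurveMod l k a b :=
  ⟨hΔ, fun v hv => (hS v).resolve_left hv, fun v hv => hP v (not_not.1 hv)⟩

theorem rankZero_of {k K : Type} [Field k] [Finite k] [Field K] [Algebra k K] [FF.IsFF k K]
    {a b : K} (h : ∀ m : ℕ, S.VanishesTo k a b m → m = 0) : RankZero k a b := by
  have hU : OrderBound k a b 0 := fun m hm => (h m hm).le
  have hR : ((0 : ℕ) : Cardinal) ≤ rank a b := by rw [Nat.cast_zero]; exact zero_le
  refine ⟨hU, fun r hr => ?_⟩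
  obtain ⟨h1, h2⟩ := Pool.Agent.TH180.R4.concl4 hR hU r hr
  exact ⟨Nat.le_zero.1 h1, fun hle => by rw [(h2 hle).2, Nat.cast_zero]⟩

theorem splitSum_eq {k K : Type} [Field k] [Field K] [Algebra k K] (l : ℕ) (a b u : K) :
    splitSum l k a b u = ∑ᶠ v : FF.Place k K, TW.gW l v a b u := by
  classical
  unfold splitSum TW.gW
  refine finsum_congr fun v => ?_
  by_cases h : v.ord (minDisc v a b) ≠ 0 ∧ TH639.B3.LocSq v u
  · have h' : IsBad v a b ∧ Splits v u := h
    rw [if_pos h, if_pos h']
  · have h' : ¬ (IsBad v a b ∧ Splits v u) := h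
    rw [if_neg h, if_neg h']

theorem ne_of_dvd {l : ℕ} {k : Type} [Field k] [Finite k] (hl : l.Prime)
    (hq : l ∣ Nat.card k - 1) : ((l : ℕ) : k) ≠ 0 := by
  intro h0
  obtain ⟨p, hp⟩ := CharP.exists k
  have hpp : p.Prime := CharP.char_is_prime k p
  let _ : Fintype k := Fintype.ofFinite k
  obtain ⟨n, -, hn⟩ := FiniteField.card k p
  have h1 : p ∣ l := (CharP.cast_eq_zero_iff k p l).1 h0
  have h2 := (Nat.prime_dvd_prime_iff_eq hpp hl).1 h1
  subst h2
  rw [Nat.card_eq_fintype_card, hn] at hq
  have hn0 : (n : ℕ) ≠ 0 := n.ne_zero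
  have h3 : p ∣ p ^ (n : ℕ) := dvd_pow_self p hn0
  have h4 : 1 ≤ p ^ (n : ℕ) := Nat.one_le_pow _ _ hpp.pos
  have h5 := (Nat.dvd_sub_iff_right h4 h3).1 hq
  exact hpp.one_lt.ne' (Nat.dvd_one.1 h5)

theorem bounds_of {l : ℕ} {k K L : Type} [Field k] [Finite k] [Field K] [Algebra k K]
    [FF.IsFF k K] [Field L] [Algebra k L] [Algebra K L] [IsScalarTower k K L] (h6 : (6 : k) ≠ 0)
    (hl : l.Prime) (hl5 : 5 ≤ l) (hq : l ∣ Nat.card k - 1) {u : K} (hu : u ≠ 0)
    {T : Set (FF.Place k K)} (hT : ∀ v, Splits v u → v ∈ T) (hL : InExtension l k K L T)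
    (h : TW.NRel l k u) : Bounds l k L u := by
  have : Fact l.Prime := ⟨hl⟩
  have hlk := ne_of_dvd hl hq
  have hlo : Odd l := hl.odd_of_ne_two (by omega)
  obtain ⟨L', i1, i2, i3, i4, t1, t2, hfd, hgal, ⟨N, hN⟩, hram⟩ := hL
  obtain ⟨ζ, hζ⟩ := TW.exists_prim (k := k) hl hq
  have hfdL : FiniteDimensional L L' := Module.Finite.of_restrictScalars_finite K L L'
  have hfdKL : FiniteDimensional K L := Module.Finite.left K L L'
  obtain ⟨n, -, hn⟩ : ∃ n ≤ N, Module.finrank K L = l ^ n := by
    rw [← Nat.dvd_prime_pow hl, ← hN, ← Module.finrank_mul_finrank K L L']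
    exact dvd_mul_right _ _
  have hNR : TW.NRel l k (algebraMap K L u) := by
    refine TW.rel_sub hlo h6 hlk hζ n K L L' N hN hn u hu ?_ h
    rintro v ⟨w, e, hov, he⟩ h1
    exact he (hram v (hT v (TW.chi_one_iff.1 h1)) w e hov.1 hov.2)
  have hFFL : FF.IsFF k L := isFF_of_finite (K := K)
  have huL : algebraMap K L u ≠ 0 := (_root_.map_ne_zero _).2 hu
  constructor
  · intro a b hab m hm
    rw [splitSum_eq]
    exact TW.twist_gen h6 hlk (by omega) hq hab.pts hab.semi hab.disc huL hNR hm
  · intro a b hab hns
    have hΔ := hab.disc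
    have hΔ' : 4 * algebraMap K L a ^ 3 + 27 * algebraMap K L b ^ 2 ≠ 0 := by
      rw [disc_map]
      exact (_root_.map_ne_zero _).2 hΔ
    obtain ⟨hP', hS'⟩ := TW.gen_up (l := l) (L := L) L' hN hΔ hab.pts hab.semi
    apply rankZero_of
    intro m hm
    rw [map_mul, map_pow, map_mul, map_pow] at hm
    have h1 := TW.twist_gen h6 hlk (by omega) hq hP' hS' hΔ' huL hNR hm
    have h2 : ∑ᶠ w : FF.Place k L, TW.gW l w (algebraMap K L a) (algebraMap K L b)
        (algebraMap K L u) = 0 := by
      rw [finsum_congr (g := fun _ => 0), finsum_zero]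
      intro w
      exact TW.gW_zero_sub L' h6 (by rw [hN]; exact Odd.pow hlo) hΔ hu hns w
    omega

theorem zero_pts {l : ℕ} {F k L : Type} [Field F] [Finite F] [Field k] [Finite k] [Algebra F k]
    [Field L] [Algebra k L] [Algebra (RatFunc k) L] [IsScalarTower k (RatFunc k) L]
    (h6 : (6 : k) ≠ 0) (hl : l.Prime) (hl5 : 5 ≤ l) (hq : l ∣ Nat.card k - 1)
    (hev : Even (Module.finrank F k)) {c : k} (hc : ¬ IsSquare c) {r s : F}
    (hr : r ≠ 0) (hL : InExtension l k (RatFunc k) L {v | ¬ IsPointOver F v})
    {a b : RatFunc k} (hab : IsCurveMod l k a b)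
    (hS : ∀ v : FF.Place k (RatFunc k), IsBad v a b → IsPointOver F v) :
    RankZero k (algebraMap (RatFunc k) L (linearFactor c r s ^ 2 * a))
      (algebraMap (RatFunc k) L (linearFactor c r s ^ 3 * b)) := by
  have : Fact l.Prime := ⟨hl⟩
  obtain ⟨h2, h3, h2K, h3K⟩ := TW.facts3 h6
  have hG : (C r * X + C s : F[X]) ≠ 0 := by
    intro h
    have h1 := natDegree_linear (b := s) hr
    rw [h, natDegree_zero] at h1
    norm_num at h1
  have hc0 : c ≠ 0 := by
    rintro rfl
    exact hc IsSquare.zero
  have e : (linearFactor c r s : RatFunc k) =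
      W309.RF.A (C c * (C r * X + C s : F[X]).map (algebraMap F k)) := by
    show algebraMap k[X] (RatFunc k) _ = algebraMap k[X] (RatFunc k) _
    congr 1
    rw [Polynomial.map_add, Polynomial.map_mul, Polynomial.map_C, Polynomial.map_X,
      Polynomial.map_C, C_mul, C_mul]
    ring
  have hu0 : (linearFactor c r s : RatFunc k) ≠ 0 := by
    rw [e]
    refine W309.RF.A_ne (mul_ne_zero (C_ne_zero.2 hc0) ?_)
    exact (Polynomial.map_ne_zero_iff (algebraMap F k).injective).2 hG
  have hns : ∀ v : FF.Place k (RatFunc k), IsPointOver F v → ¬ Splits v (linearFactor c r s) := by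
    intro v hv
    rw [e]
    exact TW.nsq_over h2 hev hc hG hv
  have hr' : c * algebraMap F k r ≠ 0 := mul_ne_zero hc0 ((_root_.map_ne_zero _).2 hr)
  have hrel : TW.NRel l k (linearFactor c r s : RatFunc k) :=
    TW.nrel_of_nr (TW.nr_base (l := l) h6 hr' (c * algebraMap F k s))
  exact (bounds_of h6 hl hl5 hq hu0 (fun v hv h => hns v h hv) hL hrel).2 a b hab
    fun v hv => hns v (hS v hv)

end proof

/-- (1) Let `K` be the function field of a curve over the field `k` with `q` elements, of
characteristic at least five, let `l ≥ 5` be a prime divisor of `q - 1` and let `u` in `K` be not a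
square, such that `k` is the field of constants of `K(√u)` and the class number of `K(√u)` is prime to
`l`. Let `L` be contained in a Galois extension of `K` of degree a power of `l` in which no place of `K`
ramifies which splits in `K(√u)`. Then for every semistable elliptic curve `E` over `L` such that `l`
divides the number of points of all good reductions, the `L`-function of the quadratic twist of `E` by
`u` vanishes at `1 / q` to order at most the sum of `l ^ v_l(deg w)` over the places `w` of bad
reduction of `E` which split in `L(√u)`, the places with `a_w ≠ 1` being counted twice. If `E` is such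
a curve over `K` and no place of `K` of bad reduction of `E` splits in `K(√u)`, then over all these `L`
the order of vanishing of the twist of `E` by `u` is zero, and if the rank is at most the order then the
rank is zero.

(2) Let `F` be a finite field of characteristic at least five, `k` an extension of `F` of even degree
with `q` elements, `l ≥ 5` a prime divisor of `q - 1` and `S` the set of the points of the projective
line over `F`. Let `E` be a semistable elliptic curve over `k(t)` with good reduction outside `S` such
that `l` divides the number of points of all good reductions. Then for all `c` in `k` which are not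
squares, all `r ≠ 0` and `s` in `F` and all `L` contained in Galois extensions of `k(t)` of degree a
power of `l` which are unramified outside `S`, the order of vanishing of the twist of `E` by
`c (r t + s)` over `L` is zero, and if the rank is at most the order then the rank is zero.

(3) For `l = 5` and characteristic at least seven all elliptic curves over a function field `K` with a
`K`-rational point of order five are semistable and five divides the number of points of all good
reductions. -/
theorem result :
    (∀ (l : ℕ) (k K : Type) [Field k] [Finite k] [Field K] [Algebra k K], l.Prime → 5 ≤ l →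
      (6 : k) ≠ 0 → l ∣ Nat.card k - 1 → IsCurveField k K → ∀ u : K, ¬ IsSquare u →
      ∀ (M : Type) [Field M] [Algebra k M] [Algebra K M] [IsScalarTower k K M],
        IsQuadField k K M u → ¬ l ∣ S.classNumber k M →
      ∀ (L : Type) [Field L] [Algebra k L] [Algebra K L] [IsScalarTower k K L],
        InExtension l k K L {v | Splits v u} → Bounds l k L u) ∧
    (∀ (l : ℕ) (F k : Type) [Field F] [Finite F] [Field k] [Finite k] [Algebra F k], l.Prime →
      5 ≤ l → (6 : k) ≠ 0 → l ∣ Nat.card k - 1 → Even (Module.finrank F k) →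
      ∀ a b : RatFunc k, IsCurveMod l k a b →
        (∀ v : FF.Place k (RatFunc k), IsBad v a b → IsPointOver F v) →
        ∀ c : k, ¬ IsSquare c → ∀ r s : F, r ≠ 0 →
        ∀ (L : Type) [Field L] [Algebra k L] [Algebra (RatFunc k) L]
          [IsScalarTower k (RatFunc k) L],
          InExtension l k (RatFunc k) L {v | ¬ IsPointOver F v} →
            RankZero k (algebraMap (RatFunc k) L (linearFactor c r s ^ 2 * a))
              (algebraMap (RatFunc k) L (linearFactor c r s ^ 3 * b))) ∧
    ∀ (k K : Type) [Field k] [Finite k] [Field K] [Algebra k K], (30 : k) ≠ 0 →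
      IsCurveField k K → ∀ a b : K, HasPointOfOrder 5 a b → IsCurveMod 5 k a b := by
  classical
  refine ⟨?_, ?_, ?_⟩
  · intro l k K _ _ _ _ hl hl5 h6 hq hK u hu M _ _ _ _ hM hcl L _ _ _ _ hL
    have : Fact l.Prime := ⟨hl⟩
    have hFF : FF.IsFF k K := ⟨hK.essFiniteType, hK.trdeg_eq_one⟩
    obtain ⟨hcf, θ, hθ, htop⟩ := hM
    have hFFM : FF.IsFF k M := ⟨hcf.essFiniteType, hcf.trdeg_eq_one⟩
    have hu0 : u ≠ 0 := by
      rintro rfl
      exact hu IsSquare.zero
    have hns : ∀ s : K, u ≠ s ^ 2 := fun s h => hu ⟨s, by rw [h, sq]⟩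
    have hrel := Pool.Agent.R427.TW.nrel_of_class (l := l) h6 hu0 hns hθ htop
      (Pool.Agent.TH958.T4.constDeg_eq_one hK.algClosed)
      (Pool.Agent.TH958.T4.constDeg_eq_one hcf.algClosed) hcl
    exact bounds_of h6 hl hl5 hq hu0 (fun v hv => hv) hL hrel
  · intro l F k _ _ _ _ _ hl hl5 h6 hq hev a b hab hS c hc r s hr L _ _ _ _ hL
    exact zero_pts h6 hl hl5 hq hev hc hr hL hab hS
  · intro k K _ _ _ _ h30 hK a b hab
    have hFF : FF.IsFF k K := ⟨hK.essFiniteType, hK.trdeg_eq_one⟩
    have h2 : (2 : k) ≠ 0 := fun e => h30 (by linear_combination 15 * e)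
    have h3 : (3 : k) ≠ 0 := fun e => h30 (by linear_combination 10 * e)
    have h5 : (5 : k) ≠ 0 := fun e => h30 (by linear_combination 6 * e)
    obtain ⟨hΔ, P, hP⟩ := hab
    obtain ⟨h7, h8⟩ := Pool.Agent.R427.TW.of_five h2 h3 h5 hΔ P (by convert hP)
    exact isCurveMod_of hΔ h8 h7

end Pool.Agent.Results.MP_60d5ce_nt.TwistsOddPrimes
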